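import Mathlib
import Pool.Agent.Helper69.Cart.Defs
import Pool.Agent.RSV.All

/-!
# All realizable triples (MP_08a990_an)
-/

set_option autoImplicit false

namespace Pool.Agent.Results.MP_08a990_an.AllTriples

open MvPolynomial
open Pool.Agent.Helper69.Cart

variable {n : ℕ}

/-- The value `R (x, y, z)` of a real polynomial `R` in `X`, `Y`, `Z` (the variables `0`, `1`, `2`). -/
noncomputable def value (R : MvPolynomial (Fin 3) ℝ) (x y z : ℝ) : ℝ := eval ![x, y, z] R

/-- The part `x > 0 ≥ z` of the real curve `R (x, 1, z) = 0`. It contains the points `(aᵢ², 0)`. -/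
def ArcsA (R : MvPolynomial (Fin 3) ℝ) : Set (ℝ × ℝ) :=
  {p | 0 < p.1 ∧ p.2 ≤ 0 ∧ value R p.1 1 p.2 = 0}

/-- The part `x > 0 ≥ y` of the real curve `R (x, y, 1) = 0`. It contains the points `(bᵢ², 0)`. -/
def ArcsB (R : MvPolynomial (Fin 3) ℝ) : Set (ℝ × ℝ) :=
  {p | 0 < p.1 ∧ p.2 ≤ 0 ∧ value R p.1 p.2 1 = 0}

/-- `R` is a smooth real form of degree `n` with the restrictions prescribed by `(a, b, s)`, with `n`
different positive roots in `X` for `Y, Z ≥ 0`, and the numbers `aᵢ ∂R/∂X (aᵢ², 1, 0)` have the same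
sign at the two ends of every arc; similarly `bᵢ ∂R/∂X (bᵢ², 0, 1)`. -/
structure Good (R : MvPolynomial (Fin 3) ℝ) (a b s : Fin n → ℝ) : Prop where
  /-- `R` is a form of degree `n` -/
  form : R.IsHomogeneous n
  /-- its restriction to `Y = 1`, `Z = 0` -/
  restrA : ∀ t : ℝ, value R t 1 0 = ∏ i, (t - a i ^ 2)
  /-- its restriction to `Y = 0`, `Z = 1` -/
  restrB : ∀ t : ℝ, value R t 0 1 = ∏ i, (t - b i ^ 2)
  /-- its restriction to `Y = Z = 1` -/
  restrS : ∀ t : ℝ, value R t 1 1 = ∏ i, (t - s i ^ 2)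
  /-- `s ≥ 0` -/
  nonneg : ∀ i, 0 ≤ s i
  /-- no common complex zero, except `0`, of `R` and its partial derivatives -/
  smooth : ∀ v : Fin 3 → ℂ, v ≠ 0 → aeval v R = 0 → ∃ i, aeval v (pderiv i R) ≠ 0
  /-- `R (·, y, z)` has `n` different positive roots -/
  roots : ∀ y z : ℝ, 0 ≤ y → 0 ≤ z → (y ≠ 0 ∨ z ≠ 0) →
    ∃ f : Fin n → ℝ, Function.Injective f ∧ ∀ k, 0 < f k ∧ value R (f k) y z = 0
  /-- `R (0, 1, ·)` has no multiple real root -/
  simple : ∀ z : ℝ, value R 0 1 z = 0 → value (pderiv 2 R) 0 1 z ≠ 0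
  /-- sign rule for `a` -/
  signA : ∀ i j : Fin n, JoinedIn (ArcsA R) (a i ^ 2, 0) (a j ^ 2, 0) →
    0 < (a i * value (pderiv 0 R) (a i ^ 2) 1 0) * (a j * value (pderiv 0 R) (a j ^ 2) 1 0)
  /-- sign rule for `b` -/
  signB : ∀ i j : Fin n, JoinedIn (ArcsB R) (b i ^ 2, 0) (b j ^ 2, 0) →
    0 < (b i * value (pderiv 0 R) (b i ^ 2) 0 1) * (b j * value (pderiv 0 R) (b j ^ 2) 0 1)

theorem pderiv_swp (R : MvPolynomial (Fin 3) ℝ) (i : Fin 3) :
    pderiv i (RSV.swp R) = RSV.swp (pderiv (Equiv.swap (1 : Fin 3) 2 i) R) := by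
  have h := pderiv_rename (f := Equiv.swap (1 : Fin 3) 2) (Equiv.injective _)
    (x := Equiv.swap (1 : Fin 3) 2 i) (p := R)
  rw [Equiv.swap_apply_self] at h
  exact h

theorem val_swp (R : MvPolynomial (Fin 3) ℝ) (x y z : ℝ) :
    RSV.val (RSV.swp R) x y z = RSV.val R x z y := by
  unfold RSV.val RSV.swp
  rw [eval_rename]
  congr 1
  congr 1
  funext i
  fin_cases i <;> rfl

theorem smooth_swp {R : MvPolynomial (Fin 3) ℝ} (h : RSV.Smooth R) : RSV.Smooth (RSV.swp R) := by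
  have hv : ∀ (Q : MvPolynomial (Fin 3) ℝ) (v : Fin 3 → ℂ),
      aeval v (RSV.swp Q) = aeval (v ∘ Equiv.swap (1 : Fin 3) 2) Q := by
    intro Q v
    unfold RSV.swp
    rw [aeval_rename]
  intro v hv0 hR
  rw [hv] at hR
  obtain ⟨i, hi⟩ := h (v ∘ Equiv.swap (1 : Fin 3) 2) (by
    intro h0
    apply hv0
    funext i
    have h1 := congrFun h0 (Equiv.swap (1 : Fin 3) 2 i)
    rw [Function.comp_apply, Equiv.swap_apply_self] at h1
    exact h1) hR
  refine ⟨Equiv.swap (1 : Fin 3) 2 i, ?_⟩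
  rw [pderiv_swp, Equiv.swap_apply_self, hv]
  exact hi

/-- roots of the restriction -/
theorem aux {R : MvPolynomial (Fin 3) ℝ} {a : Fin n → ℝ} {y z : ℝ}
    (h1 : ∀ t : ℝ, RSV.val R t y z = ∏ i, (t - a i ^ 2))
    (h2 : ∃ f : Fin n → ℝ, Function.Injective f ∧ ∀ k, 0 < f k ∧ RSV.val R (f k) y z = 0) :
    (∀ i, 0 < a i ^ 2) ∧ Function.Injective (fun i => a i ^ 2) := by
  obtain ⟨f, hf, hf2⟩ := h2
  have h3 : ∀ k, ∃ i, f k = a i ^ 2 := by
    intro k
    have h4 := (hf2 k).2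
    rw [h1, Finset.prod_eq_zero_iff] at h4
    obtain ⟨i, -, hi⟩ := h4
    exact ⟨i, by linarith⟩
  choose g hg using h3
  have hgi : Function.Injective g := by
    intro k l h
    apply hf
    rw [hg k, hg l, h]
  have hgs : Function.Surjective g := Finite.surjective_of_injective hgi
  constructor
  · intro i
    obtain ⟨k, rfl⟩ := hgs i
    rw [← hg k]
    exact (hf2 k).1
  · intro i j h
    obtain ⟨k, rfl⟩ := hgs i
    obtain ⟨l, rfl⟩ := hgs j
    have h5 : f k = f l := by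
      rw [hg k, hg l]
      exact h
    rw [hf h5]

theorem hasDeriv (R : MvPolynomial (Fin 3) ℝ) (y z x : ℝ) :
    HasDerivAt (fun t => eval ![t, y, z] R) (eval ![x, y, z] (pderiv 0 R)) x := by
  induction R using MvPolynomial.induction_on with
  | C c => simpa using hasDerivAt_const x c
  | add p q hp hq =>
    have h1 := hp.fun_add hq
    simp only [map_add]
    exact h1
  | mul_X p i hp =>
    have h1 : HasDerivAt (fun t : ℝ => (![t, y, z] : Fin 3 → ℝ) i)
        (eval ![x, y, z] (pderiv 0 (X i : MvPolynomial (Fin 3) ℝ))) x := by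
      fin_cases i
      · simpa using hasDerivAt_id' x
      · simpa using hasDerivAt_const x y
      · simpa using hasDerivAt_const x z
    have h2 := hp.fun_mul h1
    simp only [Derivation.leibniz, smul_eq_mul, map_add, map_mul, eval_X]
    refine (h2.congr_deriv ?_)
    ring

/-- simple roots -/
theorem aux2 {R : MvPolynomial (Fin 3) ℝ} {a : Fin n → ℝ} {y z : ℝ}
    (h1 : ∀ t : ℝ, RSV.val R t y z = ∏ i, (t - a i ^ 2))
    (h2 : Function.Injective (fun i => a i ^ 2)) (x : ℝ) (hx : RSV.val R x y z = 0) :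
    RSV.val (pderiv 0 R) x y z ≠ 0 := by
  classical
  have h3 := hasDeriv R y z x
  have h4 : (fun t => eval ![t, y, z] R) = fun t => ∏ i, (t - a i ^ 2) := by
    funext t
    exact h1 t
  rw [h4] at h3
  have h5 : HasDerivAt (fun t => ∏ i, (t - a i ^ 2))
      (∑ i, (∏ j ∈ Finset.univ.erase i, (x - a j ^ 2)) • (1 : ℝ)) x := by
    apply HasDerivAt.fun_finsetProd
    intro i _
    exact (hasDerivAt_id x).sub_const _
  have h6 := h3.unique h5
  rw [h1, Finset.prod_eq_zero_iff] at hx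
  obtain ⟨k, -, hk⟩ := hx
  have h7 : x = a k ^ 2 := by linarith
  unfold RSV.val
  rw [h6, Finset.sum_eq_single k]
  · rw [smul_eq_mul, mul_one]
    apply Finset.prod_ne_zero_iff.2
    intro j hj h8
    apply (Finset.mem_erase.1 hj).1
    apply h2
    show a j ^ 2 = a k ^ 2
    linarith
  · intro i _ hi
    rw [smul_eq_mul, mul_one]
    apply Finset.prod_eq_zero (Finset.mem_erase.2 ⟨hi.symm, Finset.mem_univ k⟩)
    linarith
  · intro h
    exact absurd (Finset.mem_univ k) h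

theorem good_iff (hn : 1 ≤ n) (R : MvPolynomial (Fin 3) ℝ) (a b s : Fin n → ℝ) :
    Good R a b s ↔ RSV.Good R a b s := by
  have hsw : ∀ x y : ℝ, RSV.val (RSV.swp R) x 1 y = RSV.val R x y 1 := fun x y => val_swp R x 1 y
  have hswd : ∀ x : ℝ, RSV.val (pderiv 0 (RSV.swp R)) x 1 0 = RSV.val (pderiv 0 R) x 0 1 := by
    intro x
    rw [pderiv_swp, val_swp]
    rfl
  have hgam : RSV.Gam (RSV.swp R) = ArcsB R := by
    ext p
    unfold RSV.Gam ArcsB
    change (0 < p.1 ∧ p.2 ≤ 0 ∧ RSV.val (RSV.swp R) p.1 1 p.2 = 0) ↔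
      (0 < p.1 ∧ p.2 ≤ 0 ∧ RSV.val R p.1 p.2 1 = 0)
    rw [hsw]
  have key : ∀ (h0 : R.IsHomogeneous n) (h1 : ∀ t : ℝ, RSV.val R t 1 0 = ∏ i, (t - a i ^ 2))
      (h2 : ∀ t : ℝ, RSV.val R t 0 1 = ∏ i, (t - b i ^ 2)) (h3 : RSV.Smooth R)
      (h4 : ∀ y z : ℝ, 0 ≤ y → 0 ≤ z → (y ≠ 0 ∨ z ≠ 0) →
        ∃ f : Fin n → ℝ, Function.Injective f ∧ ∀ k, 0 < f k ∧ RSV.val R (f k) y z = 0),
      (RSV.ArcSign R a ↔ ∀ i j : Fin n, JoinedIn (ArcsA R) (a i ^ 2, 0) (a j ^ 2, 0) →
        0 < (a i * value (pderiv 0 R) (a i ^ 2) 1 0) *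
          (a j * value (pderiv 0 R) (a j ^ 2) 1 0)) ∧
      (RSV.ArcSign (RSV.swp R) b ↔
        ∀ i j : Fin n, JoinedIn (ArcsB R) (b i ^ 2, 0) (b j ^ 2, 0) →
        0 < (b i * value (pderiv 0 R) (b i ^ 2) 0 1) *
          (b j * value (pderiv 0 R) (b j ^ 2) 0 1)) := by
    intro h0 h1 h2 h3 h4
    have ha := aux h1 (h4 1 0 zero_le_one le_rfl (Or.inl one_ne_zero))
    have hb := aux h2 (h4 0 1 le_rfl zero_le_one (Or.inr one_ne_zero))
    constructor
    · refine RSV.thm_Jn n R a hn h0 h3 (fun x _ hx => aux2 h1 ha.2 x hx) (fun i => ⟨?_, ?_⟩)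
      · rw [h1]
        exact Finset.prod_eq_zero (Finset.mem_univ i) (sub_self _)
      · intro h
        have := ha.1 i
        rw [h] at this
        norm_num at this
    · have h5 := RSV.thm_Jn n (RSV.swp R) b hn (by
          unfold RSV.swp
          exact h0.rename_isHomogeneous) (smooth_swp h3)
        (fun x _ hx => by
          rw [hswd]
          rw [hsw] at hx
          exact aux2 h2 hb.2 x hx) (fun i => ⟨?_, ?_⟩)
      · rw [hgam] at h5
        simp only [hswd] at h5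
        exact h5
      · rw [hsw, h2]
        exact Finset.prod_eq_zero (Finset.mem_univ i) (sub_self _)
      · intro h
        have := hb.1 i
        rw [h] at this
        norm_num at this
  constructor
  · rintro ⟨h0, h1, h2, h3, h4, h5, h6, h7, h8, h9⟩
    obtain ⟨ka, kb⟩ := key h0 h1 h2 h5 h6
    exact ⟨h0, h1, h2, h3, h4, h5, h6, h7, ka.2 h8, kb.2 h9⟩
  · rintro ⟨h0, h1, h2, h3, h4, h5, h6, h7, h8, h9⟩
    obtain ⟨ka, kb⟩ := key h0 h1 h2 h5 h6
    exact ⟨h0, h1, h2, h3, h4, h5, h6, h7, ka.1 h8, kb.1 h9⟩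

/-- **All realizable triples.** For every `n ≥ 1` and all real tuples `a`, `b`, `s` of length `n`:
there are Hermitian `A`, `B` with eigenvalues `a`, `b` such that `A + iB` has the singular values `s`
if and only if `(a, b, s)` is a limit of triples `(a', b', s')` for which there is a good real ternary
form `R` of degree `n`. The form `R` is prescribed on the three lines `Z = 0`, `Y = 0`, `Y = Z`; what is
unknown is `Y Z (Y - Z) S` with a form `S` of degree `n - 3`: nothing for `n = 1, 2` and one real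
number for `n = 3`. -/
theorem result (hn : 1 ≤ n) (a b s : Fin n → ℝ) :
    Realizable a b s ↔ (a, b, s) ∈ closure {p : (Fin n → ℝ) × (Fin n → ℝ) × (Fin n → ℝ) |
      ∃ R : MvPolynomial (Fin 3) ℝ, Good R p.1 p.2.1 p.2.2} := by
  have h : {p : (Fin n → ℝ) × (Fin n → ℝ) × (Fin n → ℝ) |
      ∃ R : MvPolynomial (Fin 3) ℝ, Good R p.1 p.2.1 p.2.2} =
        {p | ∃ R : RSV.TP, RSV.Good R p.1 p.2.1 p.2.2} := by
    ext p
    exact exists_congr fun R => good_iff hn R p.1 p.2.1 p.2.2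
  rw [h]
  exact RSV.thm_Thm n a b s hn

end Pool.Agent.Results.MP_08a990_an.AllTriples
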