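import Pool.Agent.Helper69.Cart.Fwd
import Pool.Agent.Helper69.Cart.Conv

set_option autoImplicit false

namespace Pool.Agent.Results.MP_08a990_an.ExactHornRange

open Pool.Agent.Helper69.Cart

variable {n : ℕ}

/-- **Exact range of the Horn description.** For real spectra `a`, `b` the following are
equivalent: the triples `(a, b, s)` realizable by eigenvalues of `A`, eigenvalues of `B` and
singular values of `A + iB` are exactly those with `s ≥ 0` for which `(a², b², s²)` solves the
sum problem for Hermitian matrices; and `(a i * b j + a k * b l) * (a i * b l + a k * b j) ≥ 0`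
for all `i ≠ k` and `j ≠ l`. -/
theorem result (a b : Fin n → ℝ) :
    (∀ s : Fin n → ℝ, Realizable a b s ↔ (∀ i, 0 ≤ s i) ∧
      SumRealizable (fun i => a i ^ 2) (fun i => b i ^ 2) (fun i => s i ^ 2)) ↔
    ∀ i k j l : Fin n, i ≠ k → j ≠ l → 0 ≤ (a i * b j + a k * b l) * (a i * b l + a k * b j) := by
  constructor
  · intro h
    by_contra hP
    obtain ⟨s, hs1, hs2⟩ := conv a b hP
    exact hs2 ((h s).1 hs1).2
  · intro hP
    exact fwd hP

end Pool.Agent.Results.MP_08a990_an.ExactHornRange
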