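import Pool.Agent.DHC.Main

set_option autoImplicit false

namespace Pool.Agent.Results.MP_08a990_an.HornSufficient

open Pool.Agent.Helper69.Cart

variable {n : ℕ}

/-- **The Horn description for the squares is always sufficient.** For every `n` and all real `a`, `b`
(no condition on the signs) and `s ≥ 0`: if there are Hermitian matrices with eigenvalues `a²` and `b²`
whose sum has the eigenvalues `s²` then there are Hermitian `A`, `B` with eigenvalues `a`, `b` such
that `A + iB` has the singular values `s`. -/
theorem result (a b s : Fin n → ℝ) (hs : ∀ i, 0 ≤ s i)
    (h : SumRealizable (fun i => a i ^ 2) (fun i => b i ^ 2) (fun i => s i ^ 2)) :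
    Realizable a b s :=
  Pool.Agent.DHC.suff hs h

end Pool.Agent.Results.MP_08a990_an.HornSufficient
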