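import Pool.Agent.CRO.Final

set_option autoImplicit false

namespace Pool.Agent.Results.MP_08a990_an.ScalarPlusRankOne

open Pool.Agent.Helper69.Cart

/-- **All realizable triples in which the spectrum of `B` is `(b₁, b₂, …, b₂)`.** Let
`a 0 ≥ … ≥ a m` and `b₁, b₂` be real, of any signs. The singular values `s` of `A + iB`, where the
Hermitian matrices `A`, `B` have the eigenvalues `a` and `b₁, b₂, …, b₂`, are exactly the `s ≥ 0`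
for which there are real numbers `r l` with `a (l+1) ≤ r l ≤ a l` and
`t² ∏ (t² + b₂² - sᵢ²) = (t² + b₂²) ∏ (t² - aᵢ²) - G(t) G'(t)` for all real `t`, where
`G(t) = b₂ ∏ (t - aᵢ) + (b₁ - b₂) t ∏ (t - rₗ)` and
`G'(t) = b₂ ∏ (t + aᵢ) + (b₁ - b₂) t ∏ (t + rₗ)`.
(For `b₂ = 0` this is `∏ (z - sᵢ²) = ∏ (z - aᵢ²) - b₁² ∏ (z - rₗ²)`, `z = t²`.) -/
theorem result {m : ℕ} (a : Fin (m + 1) → ℝ) (ha : Antitone a) (b₁ b₂ : ℝ)
    (s : Fin (m + 1) → ℝ) :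
    Realizable a (Fin.cons b₁ (fun _ => b₂)) s ↔ (∀ i, 0 ≤ s i) ∧ ∃ r : Fin m → ℝ,
      (∀ l : Fin m, a l.succ ≤ r l ∧ r l ≤ a l.castSucc) ∧
      ∀ t : ℝ, t ^ 2 * ∏ i, (t ^ 2 + b₂ ^ 2 - s i ^ 2) =
        (t ^ 2 + b₂ ^ 2) * ∏ i, (t ^ 2 - a i ^ 2) -
        (b₂ * ∏ i, (t - a i) + (b₁ - b₂) * t * ∏ l, (t - r l)) *
          (b₂ * ∏ i, (t + a i) + (b₁ - b₂) * t * ∏ l, (t + r l)) :=
  Pool.Agent.CRO.main a ha b₁ b₂ s

end Pool.Agent.Results.MP_08a990_an.ScalarPlusRankOne
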